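import Mathlib

namespace Pool.Agent.Results.MP_0c87c4_co.RainbowTwoThirds

/-- A rainbow directed path with `l` edges: an injective sequence of `l + 1` vertices, consecutive
ones joined by an arc, the `l` arcs having pairwise distinct colours. -/
structure IsRainbowPath {V C : Type*} (Adj : V → V → Prop) (col : V → V → C) (l : ℕ)
    (p : Fin (l + 1) → V) : Prop where
  inj : Function.Injective p
  adj : ∀ i : Fin l, Adj (p i.castSucc) (p i.succ)
  rainbow : Function.Injective fun i : Fin l => col (p i.castSucc) (p i.succ)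

/-- Working form of rainbow paths, indexed by natural numbers. -/
structure RP {V C : Type*} (Adj : V → V → Prop) (col : V → V → C) (n : ℕ) (f : ℕ → V) : Prop where
  adj : ∀ i, i < n → Adj (f i) (f (i + 1))
  inj : ∀ i j, i ≤ n → j ≤ n → f i = f j → i = j
  rb : ∀ i j, i < n → j < n → col (f i) (f (i + 1)) = col (f j) (f (j + 1)) → i = j

/-- The colour `c` does not occur on the path. -/
def Free {V C : Type*} (col : V → V → C) (n : ℕ) (f : ℕ → V) (c : C) : Prop :=
  ∀ i, i < n → col (f i) (f (i + 1)) ≠ c

section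

variable {V C : Type*} {Adj : V → V → Prop} {col : V → V → C}

lemma ext_out {n : ℕ} {f : ℕ → V} (h : RP Adj col n f) (hmax : ∀ g, ¬ RP Adj col (n + 1) g)
    {x : V} (hx : Adj (f n) x) (hc : Free col n f (col (f n) x)) : ∃ i, i ≤ n ∧ f i = x := by
  by_contra hne
  push Not at hne
  refine hmax (fun i => if i ≤ n then f i else x) ⟨?_, ?_, ?_⟩
  · intro i hi
    rcases Nat.lt_or_ge i n with h1 | h1
    · simp only [show i ≤ n by omega, show i + 1 ≤ n by omega, if_true]
      exact h.adj i h1
    · obtain rfl : i = n := by omega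
      simp only [le_refl, if_true, show ¬ (i + 1 ≤ i) by omega, if_false]
      exact hx
  · intro i j hi hj hij
    by_cases h1 : i ≤ n <;> by_cases h2 : j ≤ n
    · simp only [h1, h2, if_true] at hij
      exact h.inj i j h1 h2 hij
    · simp only [h1, h2, if_true, if_false] at hij
      exact absurd hij (hne i h1)
    · simp only [h1, h2, if_true, if_false] at hij
      exact absurd hij.symm (hne j h2)
    · omega
  · intro i j hi hj hij
    rcases Nat.lt_or_ge i n with h1 | h1 <;> rcases Nat.lt_or_ge j n with h2 | h2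
    · simp only [show i ≤ n by omega, show i + 1 ≤ n by omega, show j ≤ n by omega,
        show j + 1 ≤ n by omega, if_true] at hij
      exact h.rb i j h1 h2 hij
    · obtain rfl : j = n := by omega
      simp only [le_refl, if_true, show ¬ (j + 1 ≤ j) by omega, if_false,
        show i ≤ j by omega, show i + 1 ≤ j by omega] at hij
      exact absurd hij (hc i h1)
    · obtain rfl : i = n := by omega
      simp only [le_refl, if_true, show ¬ (i + 1 ≤ i) by omega, if_false,
        show j ≤ i by omega, show j + 1 ≤ i by omega] at hij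
      exact absurd hij.symm (hc j h2)
    · omega

/-- Prepending a vertex. -/
def consF (x : V) (f : ℕ → V) : ℕ → V
  | 0 => x
  | i + 1 => f i

lemma ext_in {n : ℕ} {f : ℕ → V} (h : RP Adj col n f) (hmax : ∀ g, ¬ RP Adj col (n + 1) g)
    {x : V} (hx : Adj x (f 0)) (hc : Free col n f (col x (f 0))) : ∃ i, i ≤ n ∧ f i = x := by
  by_contra hne
  push Not at hne
  refine hmax (consF x f) ⟨?_, ?_, ?_⟩
  · intro i hi
    cases i with
    | zero => exact hx
    | succ i => exact h.adj i (by omega)
  · intro i j hi hj hij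
    cases i with
    | zero =>
      cases j with
      | zero => rfl
      | succ j => exact absurd hij.symm (hne j (by omega))
    | succ i =>
      cases j with
      | zero => exact absurd hij (hne i (by omega))
      | succ j => exact congrArg (· + 1) (h.inj i j (by omega) (by omega) hij)
  · intro i j hi hj hij
    cases i with
    | zero =>
      cases j with
      | zero => rfl
      | succ j => exact absurd hij.symm (hc j (by omega))
    | succ i =>
      cases j with
      | zero => exact absurd hij (hc i (by omega))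
      | succ j => exact congrArg (· + 1) (h.rb i j (by omega) (by omega) hij)

/-- Index map of the rotation. -/
def rho (n t j p : ℕ) : ℕ :=
  if p < n - j then j + 1 + p else if p ≤ n - t then t + (p - (n - j)) else p - (n - t + 1)

lemma rho_le {n t j p : ℕ} (ht : 1 ≤ t) (htj : t ≤ j) (hj : j < n) (hp : p ≤ n) :
    rho n t j p ≤ n := by
  unfold rho
  split_ifs <;> omega

lemma rho_inj {n t j p p' : ℕ} (ht : 1 ≤ t) (htj : t ≤ j) (hj : j < n) (hp : p ≤ n)
    (hp' : p' ≤ n) (h : rho n t j p = rho n t j p') : p = p' := by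
  unfold rho at h
  split_ifs at h <;> omega

lemma rho_step {n t j p : ℕ} (ht : 1 ≤ t) (htj : t ≤ j) (hj : j < n) (hp : p < n) :
    (rho n t j (p + 1) = rho n t j p + 1 ∧ rho n t j p < n ∧ rho n t j p ≠ j ∧
      rho n t j p ≠ t - 1) ∨
    (rho n t j p = n ∧ rho n t j (p + 1) = t) ∨ (rho n t j p = j ∧ rho n t j (p + 1) = 0) := by
  unfold rho
  split_ifs <;> omega

lemma rho_last {n t j : ℕ} (ht : 1 ≤ t) (htj : t ≤ j) (hj : j < n) : rho n t j n = t - 1 := by
  unfold rho
  split_ifs <;> omega

lemma rho_surj {n t j : ℕ} (ht : 1 ≤ t) (htj : t ≤ j) (hj : j < n) {i : ℕ} (hi : i ≤ n) :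
    ∃ p, p ≤ n ∧ rho n t j p = i := by
  rcases Nat.lt_or_ge j i with h | h
  · refine ⟨i - j - 1, by omega, ?_⟩
    unfold rho
    split_ifs <;> omega
  · rcases Nat.lt_or_ge i t with h' | h'
    · refine ⟨n - t + 1 + i, by omega, ?_⟩
      unfold rho
      split_ifs <;> omega
    · refine ⟨n - j + (i - t), by omega, ?_⟩
      unfold rho
      split_ifs <;> omega

lemma rot_RP {n t j : ℕ} {f : ℕ → V} (h : RP Adj col n f) (ht : 1 ≤ t) (htj : t ≤ j) (hj : j < n)
    (hu : Adj (f n) (f t)) (huf : Free col n f (col (f n) (f t)))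
    (hw : Adj (f j) (f 0)) (hwf : Free col n f (col (f j) (f 0)))
    (huw : col (f n) (f t) ≠ col (f j) (f 0)) :
    RP Adj col n (fun p => f (rho n t j p)) := by
  refine ⟨?_, ?_, ?_⟩
  · intro p hp
    rcases rho_step ht htj hj hp with ⟨h1, h2, -, -⟩ | ⟨h1, h2⟩ | ⟨h1, h2⟩
    · simp only [h1]
      exact h.adj _ h2
    · simp only [h1, h2]
      exact hu
    · simp only [h1, h2]
      exact hw
  · intro p p' hp hp' hpp
    exact rho_inj ht htj hj hp hp'
      (h.inj _ _ (rho_le ht htj hj hp) (rho_le ht htj hj hp') hpp)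
  · intro p p' hp hp' hpp
    apply rho_inj ht htj hj hp.le hp'.le
    rcases rho_step ht htj hj hp with ⟨h1, h2, -, -⟩ | ⟨h1, h2⟩ | ⟨h1, h2⟩ <;>
    rcases rho_step ht htj hj hp' with ⟨h1', h2', -, -⟩ | ⟨h1', h2'⟩ | ⟨h1', h2'⟩ <;>
    simp only [h1, h2, h1', h2'] at hpp ⊢
    · exact h.rb _ _ h2 h2' hpp
    · exact absurd hpp (huf _ h2)
    · exact absurd hpp (hwf _ h2)
    · exact absurd hpp.symm (huf _ h2')
    · exact absurd hpp huw
    · exact absurd hpp.symm (hwf _ h2')
    · exact absurd hpp.symm huw

lemma rot_free {n t j : ℕ} {f : ℕ → V} (ht : 1 ≤ t) (htj : t ≤ j) (hj : j < n) {c : C}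
    (h1 : c ≠ col (f n) (f t)) (h2 : c ≠ col (f j) (f 0))
    (h3 : ∀ i, i < n → i ≠ j → i ≠ t - 1 → col (f i) (f (i + 1)) ≠ c) :
    Free col n (fun p => f (rho n t j p)) c := by
  intro p hp
  rcases rho_step ht htj hj hp with ⟨e1, e2, e3, e4⟩ | ⟨e1, e2⟩ | ⟨e1, e2⟩
  · simp only [e1]
    exact h3 _ e2 e3 e4
  · simp only [e1, e2]
    exact h1.symm
  · simp only [e1, e2]
    exact h2.symm

end

/-- The counting lemma about a family of intervals of equal length meeting a set. -/
lemma zone_count (A : Finset ℕ) (t m : ℕ) (ht : 4 ≤ t) (J : Finset ℕ) :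
    (∀ j ∈ J, m ≤ j) →
    (∀ j ∈ J, ∀ a ∈ A, ∀ a' ∈ A, j + 2 ≤ a → a ≤ j + t → j + 2 ≤ a' → a' ≤ j + t → a = a') →
    (∀ a ∈ A, ∀ j ∈ J, ∀ j' ∈ J, j + 2 ≤ a → a ≤ j + t → j' + 2 ≤ a → a ≤ j' + t → j = j') →
    ∀ M ∈ J, (∀ j ∈ J, j ≤ M) →
      (A ∩ Finset.Icc (m + 2) (M + t)).card + J.card + m ≤
        M + 2 + (if M + t ∈ A then 1 else 0) := by
  induction J using Finset.induction_on_max with
  | empty => intro _ _ _ M hM; simp at hM
  | insert M₀ s hs ih =>
    intro hm h1 h2 M hM hMmax
    have hMM : M = M₀ := by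
      rcases Finset.mem_insert.1 hM with h | h
      · exact h
      · exact absurd (hMmax M₀ (Finset.mem_insert_self _ _)) (by have := hs M h; omega)
    subst hMM
    have hMs : M ∉ s := fun h => lt_irrefl _ (hs M h)
    have hmM : m ≤ M := hm M (Finset.mem_insert_self _ _)
    rw [Finset.card_insert_of_notMem hMs]
    -- at most one element of `A` in the last zone
    have hz1 : (A ∩ Finset.Icc (M + 2) (M + t)).card ≤ 1 := by
      rw [Finset.card_le_one]
      intro a ha b hb
      simp only [Finset.mem_inter, Finset.mem_Icc] at ha hb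
      exact h1 M (Finset.mem_insert_self _ _) a ha.1 b hb.1 ha.2.1 ha.2.2 hb.2.1 hb.2.2
    have hz0 : M + t ∉ A → (A ∩ Finset.Icc (M + 2) (M + t)).card ≤ 1 := fun _ => hz1
    rcases s.eq_empty_or_nonempty with rfl | hne
    · -- base case
      have hsplit : A ∩ Finset.Icc (m + 2) (M + t) ⊆
          Finset.Icc (m + 2) (M + 1) ∪ (A ∩ Finset.Icc (M + 2) (M + t)) := by
        intro a ha
        simp only [Finset.mem_inter, Finset.mem_Icc, Finset.mem_union] at ha ⊢
        by_cases h : a ≤ M + 1
        · left; exact ⟨ha.2.1, h⟩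
        · right; exact ⟨ha.1, by omega, ha.2.2⟩
      have h3 := (Finset.card_le_card hsplit).trans (Finset.card_union_le _ _)
      rw [Nat.card_Icc] at h3
      simp only [Finset.card_empty]
      split_ifs <;> omega
    · obtain ⟨M', hM's, hM'max⟩ : ∃ M' ∈ s, ∀ j ∈ s, j ≤ M' :=
        ⟨s.max' hne, s.max'_mem hne, fun j hj => s.le_max' j hj⟩
      have ih' := ih (fun j hj => hm j (Finset.mem_insert_of_mem hj))
        (fun j hj => h1 j (Finset.mem_insert_of_mem hj))
        (fun a ha j hj j' hj' => h2 a ha j (Finset.mem_insert_of_mem hj) j'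
          (Finset.mem_insert_of_mem hj')) M' hM's hM'max
      have hlt : M' < M := hs M' hM's
      have hmM' : m ≤ M' := hm M' (Finset.mem_insert_of_mem hM's)
      have hsplit : A ∩ Finset.Icc (m + 2) (M + t) ⊆
          (A ∩ Finset.Icc (m + 2) (M' + t)) ∪ (A ∩ Finset.Icc (M' + t + 1) (M + t)) := by
        intro a ha
        simp only [Finset.mem_inter, Finset.mem_Icc, Finset.mem_union] at ha ⊢
        by_cases h : a ≤ M' + t
        · left; exact ⟨ha.1, ha.2.1, h⟩
        · right; exact ⟨ha.1, by omega, ha.2.2⟩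
      have h3 := (Finset.card_le_card hsplit).trans (Finset.card_union_le _ _)
      by_cases hM'A : M' + t ∈ A
      · -- then the last zone starts after `M' + t`
        have hgap : M' + t < M + 2 := by
          by_contra hcon
          have := h2 (M' + t) hM'A M' (Finset.mem_insert_of_mem hM's) M
            (Finset.mem_insert_self _ _) (by omega) le_rfl (by omega) (by omega)
          omega
        have hsub : A ∩ Finset.Icc (M' + t + 1) (M + t) ⊆
            Finset.Icc (M' + t + 1) (M + 1) ∪ (A ∩ Finset.Icc (M + 2) (M + t)) := by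
          intro a ha
          simp only [Finset.mem_inter, Finset.mem_Icc, Finset.mem_union] at ha ⊢
          by_cases h : a ≤ M + 1
          · left; exact ⟨ha.2.1, h⟩
          · right; exact ⟨ha.1, by omega, ha.2.2⟩
        have h4 := (Finset.card_le_card hsub).trans (Finset.card_union_le _ _)
        rw [Nat.card_Icc] at h4
        simp only [hM'A, if_true] at ih'
        split_ifs <;> omega
      · simp only [hM'A, if_false] at ih'
        by_cases hMA : M + t ∈ A
        · have h4 : (A ∩ Finset.Icc (M' + t + 1) (M + t)).card ≤ M - M' := by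
            refine (Finset.card_le_card Finset.inter_subset_right).trans ?_
            rw [Nat.card_Icc]; omega
          simp only [hMA, if_true]
          omega
        · have h4 : (A ∩ Finset.Icc (M' + t + 1) (M + t)).card ≤ M - M' - 1 := by
            have : A ∩ Finset.Icc (M' + t + 1) (M + t) ⊆ Finset.Icc (M' + t + 1) (M + t - 1) := by
              intro a ha
              simp only [Finset.mem_inter, Finset.mem_Icc] at ha ⊢
              refine ⟨ha.2.1, ?_⟩
              rcases Nat.lt_or_ge a (M + t) with h | h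
              · omega
              · exact absurd (show M + t ∈ A from (by
                  have : a = M + t := by omega
                  exact this ▸ ha.1)) hMA
            refine (Finset.card_le_card this).trans ?_
            rw [Nat.card_Icc]; omega
          simp only [hMA, if_false]
          omega

section

open Classical in
lemma count_out {V C : Type*} [Fintype V] {Adj : V → V → Prop} {col : V → V → C} {d : ℕ}
    (hout : ∀ u v w, Adj u v → Adj u w → col u v = col u w → v = w)
    (hdo : ∀ v, d ≤ (Finset.univ.filter (fun w => Adj v w)).card) (x : V) (B : Finset C) :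
    d ≤ B.card + (Finset.univ.filter (fun y => Adj x y ∧ col x y ∉ B)).card := by
  have h1 := hdo x
  have h2 : (Finset.univ.filter (fun w => Adj x w)).card ≤
      (Finset.univ.filter (fun y => Adj x y ∧ col x y ∈ B)).card +
      (Finset.univ.filter (fun y => Adj x y ∧ col x y ∉ B)).card := by
    refine (Finset.card_le_card ?_).trans (Finset.card_union_le _ _)
    intro y hy
    simp only [Finset.mem_filter, Finset.mem_univ, true_and, Finset.mem_union] at hy ⊢
    by_cases hB : col x y ∈ B
    · exact Or.inl ⟨hy, hB⟩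
    · exact Or.inr ⟨hy, hB⟩
  have h3 : (Finset.univ.filter (fun y => Adj x y ∧ col x y ∈ B)).card ≤ B.card := by
    refine Finset.card_le_card_of_injOn (fun y => col x y) ?_ ?_
    · intro y hy
      simp only [Finset.coe_filter, Finset.mem_univ, true_and, Set.mem_setOf_eq] at hy
      exact hy.2
    · intro y hy z hz hyz
      simp only [Finset.coe_filter, Finset.mem_univ, true_and, Set.mem_setOf_eq] at hy hz
      exact hout x y z hy.1 hz.1 hyz
  omega

open Classical in
lemma count_in {V C : Type*} [Fintype V] {Adj : V → V → Prop} {col : V → V → C} {d : ℕ}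
    (hin : ∀ u v w, Adj v u → Adj w u → col v u = col w u → v = w)
    (hdi : ∀ v, d ≤ (Finset.univ.filter (fun w => Adj w v)).card) (x : V) (B : Finset C) :
    d ≤ B.card + (Finset.univ.filter (fun y => Adj y x ∧ col y x ∉ B)).card := by
  have h1 := hdi x
  have h2 : (Finset.univ.filter (fun w => Adj w x)).card ≤
      (Finset.univ.filter (fun y => Adj y x ∧ col y x ∈ B)).card +
      (Finset.univ.filter (fun y => Adj y x ∧ col y x ∉ B)).card := by
    refine (Finset.card_le_card ?_).trans (Finset.card_union_le _ _)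
    intro y hy
    simp only [Finset.mem_filter, Finset.mem_univ, true_and, Finset.mem_union] at hy ⊢
    by_cases hB : col y x ∈ B
    · exact Or.inl ⟨hy, hB⟩
    · exact Or.inr ⟨hy, hB⟩
  have h3 : (Finset.univ.filter (fun y => Adj y x ∧ col y x ∈ B)).card ≤ B.card := by
    refine Finset.card_le_card_of_injOn (fun y => col y x) ?_ ?_
    · intro y hy
      simp only [Finset.coe_filter, Finset.mem_univ, true_and, Set.mem_setOf_eq] at hy
      exact hy.2
    · intro y hy z hz hyz
      simp only [Finset.coe_filter, Finset.mem_univ, true_and, Set.mem_setOf_eq] at hy hz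
      exact hin x y z hy.1 hz.1 hyz
  omega

open Classical in
theorem main_ineq {V C : Type*} [Fintype V] (Adj : V → V → Prop) (col : V → V → C) (d : ℕ)
    (hloop : ∀ v, ¬ Adj v v)
    (hout : ∀ u v w, Adj u v → Adj u w → col u v = col u w → v = w)
    (hin : ∀ u v w, Adj v u → Adj w u → col v u = col w u → v = w)
    (hdo : ∀ v, d ≤ (Finset.univ.filter (fun w => Adj v w)).card)
    (hdi : ∀ v, d ≤ (Finset.univ.filter (fun w => Adj w v)).card)
    (n : ℕ) (f₀ : ℕ → V) (h₀ : RP Adj col n f₀) (hmax : ∀ g, ¬ RP Adj col (n + 1) g) :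
    2 * d ≤ 3 * n + 6 := by
  by_contra hcon
  push Not at hcon
  -- used colours
  set used : (ℕ → V) → Finset C := fun g => (Finset.range n).image (fun i => col (g i) (g (i + 1)))
    with hused
  have hucard : ∀ g, (used g).card ≤ n := fun g =>
    (Finset.card_image_le).trans (by rw [Finset.card_range])
  have hfree : ∀ g c, c ∉ used g → Free col n g c := by
    intro g c hc i hi h
    exact hc (Finset.mem_image.2 ⟨i, Finset.mem_range.2 hi, h⟩)
  -- existence of `t`
  have hex : ∃ t, 1 ≤ t ∧ t ≤ n ∧ ∃ g, RP Adj col n g ∧ Adj (g n) (g t) ∧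
      Free col n g (col (g n) (g t)) := by
    have hc := count_out hout hdo (f₀ n) (used f₀)
    have hu := hucard f₀
    have h2 : 1 < (Finset.univ.filter (fun y => Adj (f₀ n) y ∧ col (f₀ n) y ∉ used f₀)).card := by
      omega
    obtain ⟨a, ha, b, hb, hab⟩ := Finset.one_lt_card.1 h2
    have key : ∀ y, y ∈ Finset.univ.filter (fun y => Adj (f₀ n) y ∧ col (f₀ n) y ∉ used f₀) →
        y ≠ f₀ 0 → ∃ t, 1 ≤ t ∧ t ≤ n ∧ ∃ g, RP Adj col n g ∧ Adj (g n) (g t) ∧
      Free col n g (col (g n) (g t)) := by
      intro y hy hy0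
      simp only [Finset.mem_filter, Finset.mem_univ, true_and] at hy
      obtain ⟨i, hi, rfl⟩ := ext_out h₀ hmax hy.1 (hfree _ _ hy.2)
      refine ⟨i, ?_, hi, f₀, h₀, hy.1, hfree _ _ hy.2⟩
      rcases Nat.eq_zero_or_pos i with rfl | h
      · exact absurd rfl hy0
      · exact h
    by_cases ha0 : a = f₀ 0
    · exact key b hb (fun h => hab (ha0.trans h.symm))
    · exact key a ha ha0
  obtain ⟨ht1, htn, f, hf, huA, huF⟩ := Nat.find_spec hex
  have hmin := fun s (hs : s < Nat.find hex) => Nat.find_min hex hs
  generalize Nat.find hex = t at ht1 htn huA huF hmin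
  replace hmin : ∀ g s, RP Adj col n g → 1 ≤ s → s < t → s ≤ n → Adj (g n) (g s) →
      ¬ Free col n g (col (g n) (g s)) := by
    intro g s hg h1 h2 h3 h4 h5
    exact hmin s h2 ⟨h1, h3, g, hg, h4, h5⟩
  have htn' : t < n := by
    rcases Nat.lt_or_ge t n with h | h
    · exact h
    · exfalso
      have : t = n := by omega
      subst this
      exact hloop _ huA
  -- Step 3
  have hst3 : d ≤ n + (1 + (n - t)) := by
    have hc := count_out hout hdo (f n) (used f)
    have hu := hucard f
    have hsub : Finset.univ.filter (fun y => Adj (f n) y ∧ col (f n) y ∉ used f) ⊆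
        (({0} : Finset ℕ) ∪ Finset.Ico t n).image f := by
      intro y hy
      simp only [Finset.mem_filter, Finset.mem_univ, true_and] at hy
      obtain ⟨i, hi, rfl⟩ := ext_out hf hmax hy.1 (hfree _ _ hy.2)
      refine Finset.mem_image.2 ⟨i, ?_, rfl⟩
      simp only [Finset.mem_union, Finset.mem_singleton, Finset.mem_Ico]
      rcases Nat.eq_zero_or_pos i with h | h
      · exact Or.inl h
      · right
        refine ⟨?_, ?_⟩
        · by_contra hlt
          exact hmin f i hf h (by omega) hi hy.1 (hfree _ _ hy.2)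
        · rcases Nat.lt_or_ge i n with h' | h'
          · exact h'
          · exfalso
            have : i = n := by omega
            subst this
            exact hloop _ hy.1
    have hle := (Finset.card_le_card hsub).trans (Finset.card_image_le.trans
      (Finset.card_union_le _ _))
    rw [Finset.card_singleton, Nat.card_Ico] at hle
    omega
  -- the set `J`
  set u : C := col (f n) (f t) with hudef
  set B : Finset C := insert u (used f) with hB
  have hBcard : B.card ≤ n + 1 := (Finset.card_insert_le _ _).trans (by have := hucard f; omega)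
  set J : Finset ℕ := (Finset.Ico t n).filter (fun j => Adj (f j) (f 0) ∧ col (f j) (f 0) ∉ B)
    with hJ
  have hJmem : ∀ j ∈ J, t ≤ j ∧ j < n ∧ Adj (f j) (f 0) ∧ col (f j) (f 0) ∉ B := by
    intro j hj
    simp only [hJ, Finset.mem_filter, Finset.mem_Ico] at hj
    exact ⟨hj.1.1, hj.1.2, hj.2.1, hj.2.2⟩
  have hBfree : ∀ c, c ∉ B → Free col n f c ∧ c ≠ u := by
    intro c hc
    rw [hB, Finset.mem_insert, not_or] at hc
    exact ⟨hfree _ _ hc.2, hc.1⟩
  have hst4 : d ≤ n + 1 + t + J.card := by
    have hc := count_in hin hdi (f 0) B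
    have hsub : Finset.univ.filter (fun y => Adj y (f 0) ∧ col y (f 0) ∉ B) ⊆
        ((Finset.Ico 1 t ∪ J) ∪ ({n} : Finset ℕ)).image f := by
      intro y hy
      simp only [Finset.mem_filter, Finset.mem_univ, true_and] at hy
      obtain ⟨i, hi, rfl⟩ := ext_in hf hmax hy.1 (hBfree _ hy.2).1
      refine Finset.mem_image.2 ⟨i, ?_, rfl⟩
      have hi0 : i ≠ 0 := by
        rintro rfl
        exact hloop _ hy.1
      simp only [Finset.mem_union, Finset.mem_singleton, Finset.mem_Ico, hJ, Finset.mem_filter]
      rcases Nat.lt_or_ge i t with h | h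
      · left; left; exact ⟨by omega, h⟩
      · rcases Nat.lt_or_ge i n with h' | h'
        · left; right; exact ⟨⟨h, h'⟩, hy.1, hy.2⟩
        · right; omega
    have hle := (Finset.card_le_card hsub).trans (Finset.card_image_le.trans
      ((Finset.card_union_le _ _).trans (Nat.add_le_add_right (Finset.card_union_le _ _) _)))
    rw [Finset.card_singleton, Nat.card_Ico] at hle
    omega
  rcases Nat.lt_or_ge J.card 2 with hJ1 | hJ2
  · omega
  -- facts about rotations
  have hrot : ∀ j ∈ J, RP Adj col n (fun p => f (rho n t j p)) := by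
    intro j hj
    obtain ⟨h1, h2, h3, h4⟩ := hJmem j hj
    exact rot_RP hf ht1 h1 h2 huA huF h3 (hBfree _ h4).1 (hBfree _ h4).2.symm
  have hwinj : ∀ j ∈ J, ∀ j' ∈ J, col (f j) (f 0) = col (f j') (f 0) → j = j' := by
    intro j hj j' hj' h
    obtain ⟨h1, h2, h3, h4⟩ := hJmem j hj
    obtain ⟨h1', h2', h3', h4'⟩ := hJmem j' hj'
    exact hf.inj j j' h2.le h2'.le (hin _ _ _ h3 h3' h)
  have hlast : ∀ j ∈ J, f (rho n t j n) = f (t - 1) := by
    intro j hj
    obtain ⟨h1, h2, h3, h4⟩ := hJmem j hj
    rw [rho_last ht1 h1 h2]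
  have hclosed : ∀ j ∈ J, ∀ y, Adj (f (t - 1)) y → col (f (t - 1)) y ≠ u →
      col (f (t - 1)) y ≠ col (f j) (f 0) →
      (∀ i, i < n → i ≠ j → i ≠ t - 1 → col (f i) (f (i + 1)) ≠ col (f (t - 1)) y) →
      ∃ i, i ≤ n ∧ i ≠ t - 1 ∧ f i = y := by
    intro j hj y h1 h2 h3 h4
    obtain ⟨g1, g2, g3, g4⟩ := hJmem j hj
    have hfr := rot_free (col := col) (f := f) ht1 g1 g2 h2 h3 h4
    have h5 : Adj ((fun p => f (rho n t j p)) n) y := by
      simp only [hlast j hj]; exact h1
    obtain ⟨p, hp, hpy⟩ := ext_out (hrot j hj) hmax h5 (by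
      simp only [hlast j hj]; exact hfr)
    refine ⟨rho n t j p, rho_le ht1 g1 g2 hp, ?_, hpy⟩
    intro he
    simp only [he] at hpy
    subst hpy
    exact hloop _ h1
  have hpick : ∀ c : C, ∃ j ∈ J, c ≠ col (f j) (f 0) := by
    intro c
    obtain ⟨a, ha, b, hb, hab⟩ := Finset.one_lt_card.1 (show 1 < J.card by omega)
    by_cases h : c = col (f a) (f 0)
    · exact ⟨b, hb, fun h' => hab (hwinj a ha b hb (h.symm.trans h'))⟩
    · exact ⟨a, ha, h⟩
  rcases Nat.lt_or_ge t 4 with ht4 | ht4
  · -- few positions forbidden: count colours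
    set B' : Finset C := insert u ((Finset.range n \ J).image (fun i => col (f i) (f (i + 1))))
      with hB'
    have hJsub : J ⊆ Finset.range n := by
      intro j hj
      exact Finset.mem_range.2 (hJmem j hj).2.1
    have hB'card : B'.card ≤ n - J.card + 1 := by
      refine (Finset.card_insert_le _ _).trans (Nat.add_le_add_right ?_ _)
      refine Finset.card_image_le.trans ?_
      rw [Finset.card_sdiff_of_subset hJsub, Finset.card_range]
    have hJn : J.card ≤ n := by
      have := Finset.card_le_card hJsub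
      rwa [Finset.card_range] at this
    have hc := count_out hout hdo (f (t - 1)) B'
    have hsub : Finset.univ.filter (fun y => Adj (f (t - 1)) y ∧ col (f (t - 1)) y ∉ B') ⊆
        ((Finset.range (n + 1)).erase (t - 1)).image f := by
      intro y hy
      simp only [Finset.mem_filter, Finset.mem_univ, true_and] at hy
      obtain ⟨hy1, hy2⟩ := hy
      rw [hB', Finset.mem_insert, not_or] at hy2
      obtain ⟨hy2, hy3⟩ := hy2
      have hfin : ∃ i, i ≤ n ∧ i ≠ t - 1 ∧ f i = y := by
        by_cases hju : ∃ j ∈ J, col (f j) (f (j + 1)) = col (f (t - 1)) y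
        · obtain ⟨j, hj, hjc⟩ := hju
          obtain ⟨g1, g2, g3, g4⟩ := hJmem j hj
          refine hclosed j hj y hy1 hy2 ?_ ?_
          · rw [← hjc]
            exact (hBfree _ g4).1 j g2
          · intro i hi hij _ hci
            exact hij (hf.rb i j hi g2 (hci.trans hjc.symm))
        · obtain ⟨j, hj, hjc⟩ := hpick (col (f (t - 1)) y)
          refine hclosed j hj y hy1 hy2 hjc ?_
          intro i hi _ _ hci
          by_cases hiJ : i ∈ J
          · exact hju ⟨i, hiJ, hci⟩
          · exact hy3 (Finset.mem_image.2 ⟨i, Finset.mem_sdiff.2 ⟨Finset.mem_range.2 hi, hiJ⟩, hci⟩)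
      obtain ⟨i, hi, hit, rfl⟩ := hfin
      exact Finset.mem_image.2 ⟨i, Finset.mem_erase.2 ⟨hit, Finset.mem_range.2 (by omega)⟩, rfl⟩
    have hle := (Finset.card_le_card hsub).trans Finset.card_image_le
    rw [Finset.card_erase_of_mem (Finset.mem_range.2 (by omega)), Finset.card_range] at hle
    omega
  · -- zones
    set A : Finset ℕ := (Finset.range (n + 1)).filter
      (fun i => Adj (f (t - 1)) (f i) ∧ col (f (t - 1)) (f i) ∉ B) with hA
    have hAmem : ∀ a ∈ A, a ≤ n ∧ Adj (f (t - 1)) (f a) ∧ col (f (t - 1)) (f a) ∉ B := by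
      intro a ha
      simp only [hA, Finset.mem_filter, Finset.mem_range] at ha
      exact ⟨by omega, ha.2.1, ha.2.2⟩
    have hAcard : d ≤ n + 1 + A.card := by
      have hc := count_out hout hdo (f (t - 1)) B
      have hsub : Finset.univ.filter (fun y => Adj (f (t - 1)) y ∧ col (f (t - 1)) y ∉ B) ⊆
          A.image f := by
        intro y hy
        simp only [Finset.mem_filter, Finset.mem_univ, true_and] at hy
        obtain ⟨hy1, hy2⟩ := hy
        obtain ⟨j, hj, hjc⟩ := hpick (col (f (t - 1)) y)
        obtain ⟨i, hi, hit, rfl⟩ := hclosed j hj y hy1 (hBfree _ hy2).2 hjc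
          (fun i hi _ _ => (hBfree _ hy2).1 i hi)
        refine Finset.mem_image.2 ⟨i, ?_, rfl⟩
        simp only [hA, Finset.mem_filter, Finset.mem_range]
        exact ⟨by omega, hy1, hy2⟩
      have hle := (Finset.card_le_card hsub).trans Finset.card_image_le
      omega
    -- zone property
    have hzone : ∀ a ∈ A, ∀ j ∈ J, j + 2 ≤ a → a ≤ j + t →
        col (f (t - 1)) (f a) = col (f j) (f 0) := by
      intro a ha j hj h1 h2
      by_contra hne
      obtain ⟨a1, a2, a3⟩ := hAmem a ha
      obtain ⟨g1, g2, g3, g4⟩ := hJmem j hj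
      have hp : rho n t j (a - j - 1) = a := by
        unfold rho
        split_ifs <;> omega
      refine hmin (fun p => f (rho n t j p)) (a - j - 1) (hrot j hj) (by omega) (by omega)
        (by omega) ?_ ?_
      · simp only [hlast j hj, hp]; exact a2
      · simp only [hlast j hj, hp]
        exact rot_free (col := col) (f := f) ht1 g1 g2 (hBfree _ a3).2 hne
          (fun i hi _ _ => (hBfree _ a3).1 i hi)
    -- all `j ∈ J` are at most `n - t`
    have hJt : ∀ j ∈ J, j + t ≤ n := by
      intro j hj
      obtain ⟨g1, g2, g3, g4⟩ := hJmem j hj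
      by_contra hlt
      have hp : rho n t j (n - j) = t := by
        unfold rho
        split_ifs <;> omega
      have e1 : t - 1 + 1 = t := by omega
      refine hmin (fun p => f (rho n t j p)) (n - j) (hrot j hj) (by omega) (by omega)
        (by omega) ?_ ?_
      · simp only [hlast j hj, hp]
        have := hf.adj (t - 1) (by omega)
        rwa [e1] at this
      · simp only [hlast j hj, hp]
        have hcc : col (f (t - 1)) (f t) = col (f (t - 1)) (f (t - 1 + 1)) := by rw [e1]
        refine rot_free (col := col) (f := f) ht1 g1 g2 ?_ ?_ ?_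
        · rw [hcc]; exact huF (t - 1) (by omega)
        · rw [hcc]; exact (hBfree _ g4).1 (t - 1) (by omega)
        · intro i hi _ hit hci
          rw [hcc] at hci
          exact hit (hf.rb i (t - 1) hi (by omega) hci)
    have hJne : J.Nonempty := Finset.card_pos.1 (by omega)
    obtain ⟨M, hMJ, hMmax⟩ : ∃ M ∈ J, ∀ j ∈ J, j ≤ M :=
      ⟨J.max' hJne, J.max'_mem hJne, fun j hj => J.le_max' j hj⟩
    have hz := zone_count A t t ht4 J (fun j hj => (hJmem j hj).1)
      (by
        intro j hj a ha a' ha' h1 h2 h3 h4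
        have e1 := hzone a ha j hj h1 h2
        have e2 := hzone a' ha' j hj h3 h4
        exact hf.inj a a' (hAmem a ha).1 (hAmem a' ha').1
          (hout _ _ _ (hAmem a ha).2.1 (hAmem a' ha').2.1 (e1.trans e2.symm)))
      (by
        intro a ha j hj j' hj' h1 h2 h3 h4
        exact hwinj j hj j' hj' ((hzone a ha j hj h1 h2).symm.trans (hzone a ha j' hj' h3 h4)))
      M hMJ hMmax
    have hMt := hJt M hMJ
    have hsplit : A ⊆ ((Finset.range (t + 2)).erase (t - 1) ∪ (A ∩ Finset.Icc (t + 2) (M + t))) ∪
        Finset.Icc (M + t + 1) n := by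
      intro a ha
      obtain ⟨a1, a2, a3⟩ := hAmem a ha
      simp only [Finset.mem_union, Finset.mem_erase, Finset.mem_range, Finset.mem_inter,
        Finset.mem_Icc]
      have hat : a ≠ t - 1 := by
        rintro rfl
        exact hloop _ a2
      rcases Nat.lt_or_ge a (t + 2) with h | h
      · left; left; exact ⟨hat, h⟩
      · rcases Nat.lt_or_ge (M + t) a with h' | h'
        · right; omega
        · left; right; exact ⟨ha, h, h'⟩
    have hle := (Finset.card_le_card hsplit).trans ((Finset.card_union_le _ _).trans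
      (Nat.add_le_add_right (Finset.card_union_le _ _) _))
    rw [Finset.card_erase_of_mem (Finset.mem_range.2 (by omega)), Finset.card_range,
      Nat.card_Icc] at hle
    have hMt' : t ≤ M := (hJmem M hMJ).1
    split_ifs at hz <;> omega

end

/-- **Rainbow paths of length at least `(2d - 6)/3`.** -/
theorem result {V C : Type*} [Finite V] [Nonempty V] (Adj : V → V → Prop) (col : V → V → C)
    (d : ℕ) (hloop : ∀ v, ¬ Adj v v)
    (hout : ∀ u v w, Adj u v → Adj u w → col u v = col u w → v = w)
    (hin : ∀ u v w, Adj v u → Adj w u → col v u = col w u → v = w)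
    (hdo : ∀ v, d ≤ {w | Adj v w}.ncard) (hdi : ∀ v, d ≤ {w | Adj w v}.ncard) :
    ∃ l : ℕ, 2 * d ≤ 3 * l + 6 ∧ ∃ p : Fin (l + 1) → V, IsRainbowPath Adj col l p := by
  classical
  haveI := Fintype.ofFinite V
  have hdo' : ∀ v, d ≤ (Finset.univ.filter (fun w => Adj v w)).card := by
    intro v
    refine (hdo v).trans (le_of_eq ?_)
    rw [Set.ncard_eq_toFinset_card']
    congr 1
    ext w
    simp
  have hdi' : ∀ v, d ≤ (Finset.univ.filter (fun w => Adj w v)).card := by
    intro v
    refine (hdi v).trans (le_of_eq ?_)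
    rw [Set.ncard_eq_toFinset_card']
    congr 1
    ext w
    simp
  have hbase : ∃ f, RP Adj col 0 f := by
    obtain ⟨v⟩ := (inferInstance : Nonempty V)
    exact ⟨fun _ => v, ⟨fun i hi => by omega, fun i j hi hj _ => by omega,
      fun i j hi hj _ => by omega⟩⟩
  have hbound : ∀ n, (∃ f, RP Adj col n f) → n ≤ Fintype.card V := by
    rintro n ⟨f, hf⟩
    have : Function.Injective (fun i : Fin (n + 1) => f i) := by
      intro a b hab
      exact Fin.ext (hf.inj a b (by omega) (by omega) hab)
    have h := Fintype.card_le_of_injective _ this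
    rw [Fintype.card_fin] at h
    omega
  obtain ⟨n, ⟨f, hf⟩, hmax⟩ : ∃ n, (∃ f, RP Adj col n f) ∧ ∀ g, ¬ RP Adj col (n + 1) g := by
    by_contra hno
    push Not at hno
    have hall : ∀ n, ∃ f, RP Adj col n f := by
      intro n
      induction n with
      | zero => exact hbase
      | succ n ih =>
        obtain ⟨f, hf⟩ := ih
        exact hno n ⟨f, hf⟩
    have := hbound _ (hall (Fintype.card V + 1))
    omega
  refine ⟨n, main_ineq Adj col d hloop hout hin hdo' hdi' n f hf hmax, fun i => f i, ?_, ?_, ?_⟩
  · intro a b hab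
    exact Fin.ext (hf.inj a b (by omega) (by omega) hab)
  · intro i
    exact hf.adj i i.2
  · intro a b hab
    exact Fin.ext (hf.rb a b a.2 b.2 hab)

end Pool.Agent.Results.MP_0c87c4_co.RainbowTwoThirds
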